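import Pool.Agent.helper43.BMH.Spec

set_option autoImplicit false

namespace Pool.Agent.helper43.BMH

theorem t_cn0 : CN0 := by
  classical
  intro ι _ w W c U hw hW hc
  set S : Finset ℤ := U.biUnion (fun u => Finset.univ.image u) with hS
  have hsub : U ⊆ Fintype.piFinset (fun _ : ι => S) := by
    intro u hu
    rw [Fintype.mem_piFinset]
    intro i
    rw [hS, Finset.mem_biUnion]
    exact ⟨u, hu, Finset.mem_image_of_mem u (Finset.mem_univ i)⟩
  have h1 : c * (U.card : ℝ) ≤ ∑ u ∈ U, ∏ i, w (u i) := by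
    have := Finset.card_nsmul_le_sum U (fun u => ∏ i, w (u i)) c hc
    rw [nsmul_eq_mul] at this
    linarith
  have h2 : ∑ u ∈ U, ∏ i, w (u i) ≤ ∑ u ∈ Fintype.piFinset (fun _ : ι => S), ∏ i, w (u i) :=
    Finset.sum_le_sum_of_subset_of_nonneg hsub (fun u _ _ => Finset.prod_nonneg (fun i _ => hw _))
  have h3 : ∑ u ∈ Fintype.piFinset (fun _ : ι => S), ∏ i, w (u i) = ∏ _i : ι, ∑ j ∈ S, w j :=
    (Finset.prod_univ_sum (fun _ : ι => S) (fun _ j => w j)).symm
  have h4 : ∏ _i : ι, ∑ j ∈ S, w j ≤ W ^ Fintype.card ι := by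
    rw [Finset.prod_const, Finset.card_univ]
    exact pow_le_pow_left₀ (Finset.sum_nonneg (fun j _ => hw j)) (hW S) _
  linarith

end Pool.Agent.helper43.BMH
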